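import Pool.Agent.J4H48.HB.Stm

/-!
Project HB, job (BOX): the cells of a box of integers of a number field.
-/

set_option autoImplicit false

open Polynomial NumberField

namespace Pool.Agent.J4H53.HB

open Pool.Agent.J4H48.HB

lemma coord_eq {K : Type} [Field K] {ι : Type} [Fintype ι] (ω : Module.Basis ι ℤ (𝓞 K))
    (x : K →+ ℝ) (y : 𝓞 K) :
    x (algebraMap (𝓞 K) K y) = ∑ j, (ω.repr y j : ℝ) * x (algebraMap (𝓞 K) K (ω j)) := by
  conv_lhs => rw [← ω.sum_repr y]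
  rw [map_sum, map_sum]
  refine Finset.sum_congr rfl fun j _ => ?_
  rw [map_zsmul, map_zsmul, zsmul_eq_mul]

lemma coord_near {K : Type} [Field K] {ι : Type} [Fintype ι] (ω : Module.Basis ι ℤ (𝓞 K))
    (x : K →+ ℝ) (a : ι → ℤ) (m : ℕ) (y : 𝓞 K) (hy : y ∈ Box ω a m) :
    |x (algebraMap (𝓞 K) K y) - ∑ j, (a j : ℝ) * x (algebraMap (𝓞 K) K (ω j))| ≤
      m * ∑ j, |x (algebraMap (𝓞 K) K (ω j))| := by
  rw [coord_eq ω x y, ← Finset.sum_sub_distrib, Finset.mul_sum]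
  refine (Finset.abs_sum_le_sum_abs _ _).trans (Finset.sum_le_sum fun j _ => ?_)
  rw [← sub_mul, abs_mul]
  refine mul_le_mul_of_nonneg_right ?_ (abs_nonneg _)
  obtain ⟨h1, h2⟩ := hy j
  have h1' : (a j : ℝ) ≤ (ω.repr y j : ℝ) := by exact_mod_cast h1
  have h2' : (ω.repr y j : ℝ) < (a j : ℝ) + m := by exact_mod_cast h2
  rw [abs_le]
  constructor <;> linarith

theorem t_BOX : S_GRID → S_MCELL → S_BOX := by
  intro hG hM K _ _ θ hθ0 hθ1 ι _ ω
  classical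
  have hG' := hG K
  obtain ⟨n, hn⟩ : ∃ n, n = Module.finrank ℚ K := ⟨_, rfl⟩
  rw [← hn] at hG' ⊢
  obtain ⟨x, hx⟩ := hG'
  obtain ⟨K1, hK1, hcell⟩ := hM θ hθ0 hθ1
  obtain ⟨L, hL⟩ : ∃ L : ℝ, L = 1 + ∑ i, ∑ j, |x i (algebraMap (𝓞 K) K (ω j))| := ⟨_, rfl⟩
  have hL1 : 1 ≤ L := by
    have : 0 ≤ ∑ i, ∑ j, |x i (algebraMap (𝓞 K) K (ω j))| :=
      Finset.sum_nonneg fun i _ => Finset.sum_nonneg fun j _ => abs_nonneg _
    linarith
  have hLi : ∀ i, ∑ j, |x i (algebraMap (𝓞 K) K (ω j))| ≤ L := by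
    intro i
    have := Finset.single_le_sum (f := fun i => ∑ j, |x i (algebraMap (𝓞 K) K (ω j))|)
      (fun i _ => Finset.sum_nonneg fun j _ => abs_nonneg _) (Finset.mem_univ i)
    linarith
  refine ⟨max ((2 * K1 * (2 * L) ^ θ) ^ n) (n * K1 + 1), ?_, ?_⟩
  · refine le_max_of_le_right ?_
    have : 0 ≤ (n : ℝ) * K1 := by positivity
    linarith
  intro a m hm
  have hm' : (1 : ℝ) ≤ m := by exact_mod_cast hm
  have hl1 : 1 ≤ 2 * L * m := by nlinarith
  obtain ⟨p, hp⟩ : ∃ p : Fin n → ℝ,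
      ∀ i, p i = ∑ j, (a j : ℝ) * x i (algebraMap (𝓞 K) K (ω j)) := ⟨_, fun i => rfl⟩
  have hcell' := fun i => hcell (p i - L * m) (2 * L * m) hl1
  choose κ hκ1 hκ2 hκ3 using hcell'
  have hin : ∀ y ∈ Box ω a m, ∀ i, p i - L * m ≤ x i (algebraMap (𝓞 K) K y) ∧
      x i (algebraMap (𝓞 K) K y) ≤ p i - L * m + 2 * L * m := by
    intro y hy i
    have h := coord_near ω (x i) a m y hy
    rw [← hp i] at h
    have h2 : (m : ℝ) * ∑ j, |x i (algebraMap (𝓞 K) K (ω j))| ≤ m * L :=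
      mul_le_mul_of_nonneg_left (hLi i) (by positivity)
    have h3 := (abs_le.mp (h.trans h2))
    constructor <;> nlinarith [h3.1, h3.2]
  obtain ⟨M, hM⟩ : ∃ M : ℕ, M = ⌊K1 * (2 * L * m) ^ θ⌋₊ + 1 := ⟨_, rfl⟩
  have hM0 : 0 < M := by omega
  have hpos : 0 ≤ K1 * (2 * L * m) ^ θ := by positivity
  have hone : 1 ≤ K1 * (2 * L * m) ^ θ := by
    have := Real.one_le_rpow hl1 hθ0.le
    nlinarith
  have hκM : ∀ y ∈ Box ω a m, ∀ i, κ i (x i (algebraMap (𝓞 K) K y)) < M := by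
    intro y hy i
    have h := hκ1 i _ (hin y hy i).1 (hin y hy i).2
    have h2 := Nat.le_floor h
    omega
  refine ⟨M ^ n, fun y => (finFunctionFinEquiv
    (fun i : Fin n => (⟨κ i (x i (algebraMap (𝓞 K) K y)) % M, Nat.mod_lt _ hM0⟩ : Fin M)) : ℕ),
    ?_, fun y _ => (finFunctionFinEquiv _).2, ?_⟩
  · refine le_trans ?_ (mul_le_mul_of_nonneg_right (le_max_left _ _) (by positivity))
    have h1 : (M : ℝ) ≤ 2 * (K1 * (2 * L * m) ^ θ) := by
      rw [hM]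
      push_cast
      have := Nat.floor_le hpos
      linarith
    have h2 : 2 * (K1 * (2 * L * m) ^ θ) = (2 * K1 * (2 * L) ^ θ) * (m : ℝ) ^ θ := by
      rw [Real.mul_rpow (by positivity) (by positivity)]
      ring
    rw [h2] at h1
    push_cast
    calc (M : ℝ) ^ n ≤ ((2 * K1 * (2 * L) ^ θ) * (m : ℝ) ^ θ) ^ n :=
          pow_le_pow_left₀ (by positivity) h1 n
      _ = (2 * K1 * (2 * L) ^ θ) ^ n * (m : ℝ) ^ ((n : ℝ) * θ) := by
          rw [mul_pow, mul_comm (n : ℝ) θ, Real.rpow_mul (by positivity), Real.rpow_natCast]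
  · intro y hy z hz hyz τ
    have hfe := finFunctionFinEquiv.injective (Fin.ext hyz)
    have heq : ∀ i, κ i (x i (algebraMap (𝓞 K) K y)) = κ i (x i (algebraMap (𝓞 K) K z)) := by
      intro i
      have h := congrArg Fin.val (congrFun hfe i)
      simp only at h
      rwa [Nat.mod_eq_of_lt (hκM y hy i), Nat.mod_eq_of_lt (hκM z hz i)] at h
    obtain ⟨I, hI⟩ := hx τ
    obtain ⟨Q, hQ⟩ : ∃ Q : ℝ, Q = max 1 (max ‖emb K y τ‖ ‖emb K z τ‖) := ⟨_, rfl⟩
    rw [← hQ]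
    have hQ1 : 1 ≤ Q := hQ ▸ le_max_left _ _
    have e1 : emb K y τ - emb K z τ = τ (algebraMap (𝓞 K) K y - algebraMap (𝓞 K) K z) := by
      simp [emb]
    rw [e1]
    refine ((hI _).1).trans ?_
    have hterm : ∀ i ∈ I, |x i (algebraMap (𝓞 K) K y - algebraMap (𝓞 K) K z)| ≤ K1 * Q ^ (1 - θ) := by
      intro i hi
      rw [map_sub]
      refine (hκ3 i _ _ (hin y hy i).1 (hin y hy i).2 (hin z hz i).1 (hin z hz i).2 (heq i)).trans ?_
      refine mul_le_mul_of_nonneg_left ?_ (by positivity)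
      refine Real.rpow_le_rpow (le_max_of_le_left (abs_nonneg _)) ?_ (by linarith)
      rw [hQ]
      refine le_max_of_le_right ?_
      exact max_le_max ((hI _).2 i hi) ((hI _).2 i hi)
    refine (Finset.sum_le_sum hterm).trans ?_
    rw [Finset.sum_const, nsmul_eq_mul, ← mul_assoc]
    refine mul_le_mul_of_nonneg_right ?_ (by positivity)
    refine le_max_of_le_right ?_
    have hc : (I.card : ℝ) ≤ n := by
      have := Finset.card_le_univ I
      rw [Fintype.card_fin] at this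
      exact_mod_cast this
    nlinarith

end Pool.Agent.J4H53.HB
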