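import Pool.Agent.J4H48.HB.Stm

/-!
Project HB, job (LINE): the cells of a progression of integers of a number field.
-/

set_option autoImplicit false

open Polynomial NumberField

namespace Pool.Agent.J4H53.HB

open Pool.Agent.J4H48.HB

theorem t_LINE : S_GRID → S_MCELL → S_LINE := by
  intro hG hM K _ _ θ hθ0 hθ1 w
  classical
  have hG' := hG K
  obtain ⟨n, hn⟩ : ∃ n, n = Module.finrank ℚ K := ⟨_, rfl⟩
  rw [← hn] at hG'
  obtain ⟨x, hx⟩ := hG'
  obtain ⟨K1, hK1, hcell⟩ := hM θ hθ0 hθ1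
  obtain ⟨L, hL⟩ : ∃ L : ℝ, L = 1 + ∑ i, |x i (algebraMap (𝓞 K) K w)| := ⟨_, rfl⟩
  have hL1 : 1 ≤ L := by
    have : 0 ≤ ∑ i, |x i (algebraMap (𝓞 K) K w)| :=
      Finset.sum_nonneg fun i _ => abs_nonneg _
    linarith
  have hLi : ∀ i, |x i (algebraMap (𝓞 K) K w)| ≤ L := by
    intro i
    have := Finset.single_le_sum (f := fun i => |x i (algebraMap (𝓞 K) K w)|)
      (fun i _ => abs_nonneg _) (Finset.mem_univ i)
    linarith
  have hA : 0 ≤ 2 * (n : ℝ) * K1 * (2 * L) ^ θ := by positivity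
  have hB : 0 ≤ (n : ℝ) * K1 := by positivity
  refine ⟨2 * n * K1 * (2 * L) ^ θ + 1 + n * K1, by linarith, ?_⟩
  intro x₀ m hm
  have hm' : (1 : ℝ) ≤ m := by exact_mod_cast hm
  have hl1 : 1 ≤ 2 * L * m := by nlinarith
  obtain ⟨p, hp⟩ : ∃ p : Fin n → ℝ, ∀ i, p i = x i (algebraMap (𝓞 K) K x₀) := ⟨_, fun i => rfl⟩
  obtain ⟨v, hv⟩ : ∃ v : Fin n → ℤ → ℝ,
      ∀ i s, v i s = p i + s * x i (algebraMap (𝓞 K) K w) := ⟨_, fun i s => rfl⟩
  have hvs : ∀ i s, x i (algebraMap (𝓞 K) K (x₀ + s • w)) = v i s := by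
    intro i s
    rw [hv, hp, map_add, map_add, map_zsmul, map_zsmul, zsmul_eq_mul]
  have hcell' := fun i => hcell (p i - L * m) (2 * L * m) hl1
  choose κ hκ1 hκ2 hκ3 using hcell'
  have hin : ∀ s : ℤ, 0 ≤ s → s < m → ∀ i, p i - L * m ≤ v i s ∧
      v i s ≤ p i - L * m + 2 * L * m := by
    intro s h0 h1 i
    have h0' : (0 : ℝ) ≤ s := by exact_mod_cast h0
    have h1' : (s : ℝ) ≤ m := by exact_mod_cast h1.le
    have h3 : |(s : ℝ) * x i (algebraMap (𝓞 K) K w)| ≤ m * L := by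
      rw [abs_mul, abs_of_nonneg h0']
      exact mul_le_mul h1' (hLi i) (abs_nonneg _) (by positivity)
    have h4 := abs_le.mp h3
    rw [hv]
    constructor <;> nlinarith [h4.1, h4.2]
  obtain ⟨M, hM⟩ : ∃ M : ℕ, M = ⌊K1 * (2 * L * m) ^ θ⌋₊ := ⟨_, rfl⟩
  have hpos : 0 ≤ K1 * (2 * L * m) ^ θ := by positivity
  have hκM : ∀ s : ℤ, 0 ≤ s → s < m → ∀ i, κ i (v i s) ≤ M := by
    intro s h0 h1 i
    have h := hκ1 i _ (hin s h0 h1 i).1 (hin s h0 h1 i).2
    rw [hM]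
    exact Nat.le_floor h
  obtain ⟨f, hf⟩ : ∃ f : Fin n → ℤ → ℕ, ∀ i s, f i s =
      if 0 ≤ x i (algebraMap (𝓞 K) K w) then κ i (v i s) else M - κ i (v i s) :=
    ⟨_, fun i s => rfl⟩
  have hfM : ∀ s : ℤ, 0 ≤ s → s < m → ∀ i, f i s ≤ M := by
    intro s h0 h1 i
    rw [hf]
    split_ifs
    · exact hκM s h0 h1 i
    · exact Nat.sub_le _ _
  have hmono : ∀ s s' : ℤ, 0 ≤ s → s ≤ s' → s' < m → ∀ i, f i s ≤ f i s' := by
    intro s s' h0 hss h1 i
    have hss' : (s : ℝ) ≤ s' := by exact_mod_cast hss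
    have a1 := hin s h0 (hss.trans_lt h1) i
    have a2 := hin s' (h0.trans hss) h1 i
    rw [hf, hf]
    split_ifs with hw
    · refine hκ2 i _ _ a1.1 ?_ a2.2
      rw [hv, hv]
      have := mul_le_mul_of_nonneg_right hss' hw
      linarith
    · refine Nat.sub_le_sub_left (hκ2 i _ _ a2.1 ?_ a1.2) M
      rw [hv, hv]
      have := mul_le_mul_of_nonpos_right hss' (not_le.mp hw).le
      linarith
  have heq : ∀ s s' : ℤ, 0 ≤ s → s ≤ s' → s' < m → ∑ i, f i s = ∑ i, f i s' →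
      ∀ i, κ i (v i s) = κ i (v i s') := by
    intro s s' h0 hss h1 hsum i
    have h := (Finset.sum_eq_sum_iff_of_le (fun i _ => hmono s s' h0 hss h1 i)).mp hsum i
      (Finset.mem_univ i)
    have b1 := hκM s h0 (hss.trans_lt h1) i
    have b2 := hκM s' (h0.trans hss) h1 i
    rw [hf, hf] at h
    split_ifs at h
    · exact h
    · omega
  have heq' : ∀ s s' : ℤ, 0 ≤ s → s < m → 0 ≤ s' → s' < m → ∑ i, f i s = ∑ i, f i s' →
      ∀ i, κ i (v i s) = κ i (v i s') := by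
    intro s s' h0 h1 h0' h1' hsum i
    rcases le_total s s' with h | h
    · exact heq s s' h0 h h1' hsum i
    · exact (heq s' s h0' h h1 hsum.symm i).symm
  refine ⟨n * M + 1, fun s => ∑ i, f i s, ?_, ?_, ?_⟩
  · have h1 : (M : ℝ) ≤ K1 * (2 * L * m) ^ θ := by
      rw [hM]
      exact Nat.floor_le hpos
    have h2 : K1 * (2 * L * m) ^ θ = K1 * (2 * L) ^ θ * (m : ℝ) ^ θ := by
      rw [Real.mul_rpow (by positivity) (by positivity)]
      ring
    rw [h2] at h1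
    have h3 : (1 : ℝ) ≤ (m : ℝ) ^ θ := Real.one_le_rpow hm' hθ0.le
    have h4 : (n : ℝ) * M ≤ n * (K1 * (2 * L) ^ θ * (m : ℝ) ^ θ) :=
      mul_le_mul_of_nonneg_left h1 (by positivity)
    have h5 : 0 ≤ (n : ℝ) * K1 * (2 * L) ^ θ * (m : ℝ) ^ θ := by positivity
    have h6 : 0 ≤ (n : ℝ) * K1 * (m : ℝ) ^ θ := by positivity
    push_cast
    nlinarith
  · intro s h0 h1
    have h := Finset.sum_le_sum (fun i (_ : i ∈ Finset.univ) => hfM s h0 h1 i)
    rw [Finset.sum_const, Finset.card_univ, Fintype.card_fin, smul_eq_mul] at h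
    exact Nat.lt_succ_of_le h
  · intro s s' h0 h1 h0' h1' hss τ
    have hk := heq' s s' h0 h1 h0' h1' hss
    obtain ⟨I, hI⟩ := hx τ
    obtain ⟨Q, hQ⟩ : ∃ Q : ℝ, Q = max 1 (max ‖emb K (x₀ + s • w) τ‖ ‖emb K (x₀ + s' • w) τ‖) :=
      ⟨_, rfl⟩
    rw [← hQ]
    have hQ1 : 1 ≤ Q := hQ ▸ le_max_left _ _
    have e1 : emb K (x₀ + s • w) τ - emb K (x₀ + s' • w) τ =
        τ (algebraMap (𝓞 K) K (x₀ + s • w) - algebraMap (𝓞 K) K (x₀ + s' • w)) := by
      rw [map_sub]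
      rfl
    rw [e1]
    refine ((hI _).1).trans ?_
    have hterm : ∀ i ∈ I, |x i (algebraMap (𝓞 K) K (x₀ + s • w) -
        algebraMap (𝓞 K) K (x₀ + s' • w))| ≤ K1 * Q ^ (1 - θ) := by
      intro i hi
      rw [map_sub, hvs, hvs]
      refine (hκ3 i _ _ (hin s h0 h1 i).1 (hin s h0 h1 i).2 (hin s' h0' h1' i).1
        (hin s' h0' h1' i).2 (hk i)).trans ?_
      refine mul_le_mul_of_nonneg_left ?_ (by positivity)
      refine Real.rpow_le_rpow (le_max_of_le_left (abs_nonneg _)) ?_ (by linarith)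
      rw [hQ]
      refine le_max_of_le_right ?_
      rw [← hvs, ← hvs]
      exact max_le_max ((hI _).2 i hi) ((hI _).2 i hi)
    refine (Finset.sum_le_sum hterm).trans ?_
    rw [Finset.sum_const, nsmul_eq_mul, ← mul_assoc]
    refine mul_le_mul_of_nonneg_right ?_ (by positivity)
    have hc : (I.card : ℝ) ≤ n := by
      have := Finset.card_le_univ I
      rw [Fintype.card_fin] at this
      exact_mod_cast this
    nlinarith

end Pool.Agent.J4H53.HB
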